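import Pool.Agent.MP_5f72fe_nt.H3.SpecC

/-! The entire continuation of the twisted series. -/

namespace Pool.Agent.MP_5f72fe_nt.H63

open Pool.Agent.MP_5f72fe_nt.H3 Complex Filter Topology MeasureTheory Set Asymptotics
open scoped Real MatrixGroups UpperHalfPlane NumberTheorySymbols

noncomputable section

/-- the twisted function on the imaginary axis -/
def gE (N : ℕ) (f : ℍ → ℂ) (y : ℝ) : ℂ :=
  (GS N)⁻¹ * ∑ c ∈ Finset.range N, (J(c | N) : ℂ) * fC f (c / N + y * I)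

theorem GS_ne (N : ℕ) (h : 0 < N) : GS N ≠ 0 := by
  unfold GS
  have h1 : ((√(N : ℝ) : ℝ) : ℂ) ≠ 0 := by
    have : (0 : ℝ) < √(N : ℝ) := Real.sqrt_pos.mpr (by exact_mod_cast h)
    exact_mod_cast this.ne'
  refine mul_ne_zero h1 ?_
  split_ifs
  · exact one_ne_zero
  · exact I_ne_zero

theorem im_pt (N c : ℕ) (y : ℝ) : ((c : ℂ) / N + y * I).im = y := by
  have : ((c : ℂ) / N) = ((c / N : ℝ) : ℂ) := by push_cast; rfl
  rw [this]
  simp

theorem E_im (n : ℕ) (y : ℝ) : E (n * (y * I)) = (Real.exp (-(2 * π * n) * y) : ℝ) := by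
  unfold E
  push_cast
  congr 1
  linear_combination (2 * π * n * y) * I_mul_I

theorem gE_hasSum (hS : RowSER) (hJ : RowJH) (hG : RowGAUSS) (N : ℕ) (w : ℤ)
    (f : CuspForm 𝒮ℒ w) (hodd : Odd N) (hsf : Squarefree N) (y : ℝ) (hy : 0 < y) :
    HasSum (fun n : ℕ => (aF f n * J(n | N)) * (Real.exp (-(2 * π * n) * y) : ℝ)) (gE N f y) := by
  have hN : 0 < N := hodd.pos
  have hsm : Sm (aF f) := (hS.cf w f).1
  have h1 : ∀ c ∈ Finset.range N, HasSum
      (fun n : ℕ => (J(c | N) : ℂ) * (aF f n * E (n * ((c : ℂ) / N + y * I) / (1 : ℕ))))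
      ((J(c | N) : ℂ) * fC f (c / N + y * I)) := by
    intro c _
    refine HasSum.mul_left _ ?_
    exact (hS.nsum 1 (aF f) (c / N + y * I) one_pos hsm (by rw [im_pt]; exact hy)).of_norm.hasSum
  have h2 := (hasSum_sum h1).mul_left (GS N)⁻¹
  refine HasSum.congr_fun h2 fun n => ?_
  have h3 := hG N hodd hsf (n : ℤ)
  have h4 : ∀ c ∈ Finset.range N,
      (J(c | N) : ℂ) * (aF f n * E (n * ((c : ℂ) / N + y * I) / (1 : ℕ))) =
      (aF f n * E (n * (y * I))) * ((J(c | N) : ℂ) * E (c * ((n : ℤ) : ℂ) / N)) := by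
    intro c _
    have : (n : ℂ) * ((c : ℂ) / N + y * I) / (1 : ℕ) = n * (y * I) + c * ((n : ℤ) : ℂ) / N := by
      push_cast
      ring
    rw [this, hJ.add]
    ring
  rw [Finset.sum_congr rfl h4, ← Finset.mul_sum, h3, E_im]
  have := GS_ne N hN
  field_simp

theorem gE_cont (hS : RowSER) (N : ℕ) (w : ℤ) (f : CuspForm 𝒮ℒ w) :
    ContinuousOn (gE N f) (Ioi 0) := by
  have hsm : Sm (aF f) := (hS.cf w f).1
  have hd := (hS.diff 1 (aF f) one_pos hsm).continuousOn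
  unfold gE
  refine continuousOn_const.mul (continuousOn_finsetSum _ fun c _ => continuousOn_const.mul ?_)
  refine hd.comp (f := fun y : ℝ => (c : ℂ) / N + y * I) (by fun_prop) ?_
  intro y hy
  show 0 < ((c : ℂ) / N + y * I).im
  rw [im_pt]
  exact hy

theorem norm_J (a : ℤ) (N : ℕ) : ‖(J(a | N) : ℂ)‖ ≤ 1 := by
  rcases jacobiSym.trichotomy a N with h | h | h <;> simp [h]

theorem gE_le (N : ℕ) (f : ℍ → ℂ) (y B : ℝ)
    (h : ∀ c ∈ Finset.range N, ‖fC f (c / N + y * I)‖ ≤ B) :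
    ‖gE N f y‖ ≤ ‖(GS N)⁻¹‖ * N * B := by
  unfold gE
  rw [norm_mul, mul_assoc]
  refine mul_le_mul_of_nonneg_left ?_ (norm_nonneg _)
  refine (norm_sum_le _ _).trans ?_
  have : ∀ c ∈ Finset.range N, ‖(J(c | N) : ℂ) * fC f (c / N + y * I)‖ ≤ B := by
    intro c hc
    rw [norm_mul]
    calc _ ≤ 1 * ‖fC f (c / N + y * I)‖ :=
          mul_le_mul_of_nonneg_right (norm_J _ _) (norm_nonneg _)
      _ ≤ B := by rw [one_mul]; exact h c hc
  refine (Finset.sum_le_card_nsmul _ _ B this).trans ?_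
  simp

theorem gE_top (hD : RowDEC) (N k : ℕ) (f : CuspForm 𝒮ℒ (2 * k : ℕ)) (a : ℝ) (ha : 0 ≤ a) :
    gE N f =O[atTop] fun y : ℝ => y ^ (-a) := by
  obtain ⟨C, hC⟩ := hD k f a ha
  refine IsBigO.of_bound (‖(GS N)⁻¹‖ * N * C) ?_
  filter_upwards [eventually_ge_atTop (1 : ℝ)] with y hy
  have hy0 : 0 < y := by linarith
  rw [mul_assoc _ C]
  refine gE_le N f y _ fun c _ => ?_
  have h1 := hC 1 0 (c / N + y * I) (by rw [im_pt]; exact hy0) (by simp)
  rw [im_pt] at h1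
  have h2 : (‖((0 : ℤ) : ℂ) * ((c : ℂ) / N + y * I) + ((1 : ℤ) : ℂ)‖ ^ 2 / y) ^ a = y ^ (-a) := by
    rw [Real.rpow_neg hy0.le, ← Real.inv_rpow hy0.le]
    simp
  rw [h2] at h1
  rw [Real.norm_of_nonneg (Real.rpow_nonneg hy0.le _)]
  refine le_trans ?_ h1
  exact le_mul_of_one_le_right (norm_nonneg _) (one_le_pow₀ hy)

theorem gE_bot (hD : RowDEC) (N k : ℕ) (hN : 0 < N) (f : CuspForm 𝒮ℒ (2 * k : ℕ)) (a : ℝ)
    (ha : 0 ≤ a) : gE N f =O[𝓝[>] 0] fun y : ℝ => y ^ (-(-a)) := by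
  obtain ⟨C, hC⟩ := hD k f (a + k) (by positivity)
  refine IsBigO.of_bound (‖(GS N)⁻¹‖ * N * (C * ((N : ℝ) ^ 2) ^ (a + k))) ?_
  filter_upwards [self_mem_nhdsWithin] with y hy
  have hy0 : 0 < y := hy
  have hN0 : (N : ℂ) ≠ 0 := by exact_mod_cast hN.ne'
  rw [mul_assoc _ (C * _), neg_neg]
  refine gE_le N f y _ fun c _ => ?_
  have h1 := hC (-c) N (c / N + y * I) (by rw [im_pt]; exact hy0) (by simp [hN.ne'])
  rw [im_pt] at h1
  have h2 : (((N : ℤ) : ℂ)) * ((c : ℂ) / N + y * I) + ((-(c : ℤ) : ℤ) : ℂ) = N * (y * I) := by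
    push_cast
    field_simp
    ring
  have h3 : ‖(N : ℂ) * (y * I)‖ ^ 2 / y = (N : ℝ) ^ 2 * y := by
    rw [norm_mul, norm_mul, norm_I, Complex.norm_real, Real.norm_of_nonneg hy0.le,
      Complex.norm_natCast]
    field_simp
  rw [h2, h3, Real.mul_rpow (by positivity) hy0.le, Real.rpow_add hy0, Real.rpow_natCast] at h1
  rw [Real.norm_of_nonneg (Real.rpow_nonneg hy0.le _)]
  have hk : 0 < y ^ k := pow_pos hy0 k
  refine le_of_mul_le_mul_right (h1.trans (le_of_eq ?_)) hk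
  ring

theorem mellin_diff (hS : RowSER) (hD : RowDEC) (N k : ℕ) (hN : 0 < N)
    (f : CuspForm 𝒮ℒ (2 * k : ℕ)) : Differentiable ℂ (mellin (gE N f)) := by
  intro s
  refine mellin_differentiableAt_of_isBigO_rpow (a := |s.re| + 1) (b := -(|s.re| + 1))
    ((gE_cont hS N _ f).locallyIntegrableOn measurableSet_Ioi)
    (gE_top hD N k f _ (by positivity)) ?_ (gE_bot hD N k hN f _ (by positivity)) ?_
  · linarith [le_abs_self s.re]
  · linarith [neg_abs_le s.re]

theorem coeff_summable (N k : ℕ) (f : CuspForm 𝒮ℒ (2 * k : ℕ)) (σ : ℝ) (hσ : k + 1 < σ) :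
    Summable fun n : ℕ => ‖aF f n * J(n | N)‖ / (2 * π * n) ^ σ := by
  have h1 := CuspFormClass.qExpansion_isBigO f
  rw [Subgroup.strictWidthInfty_SL2Z] at h1
  have h2 : Summable fun n : ℕ => (n : ℝ) ^ ((k : ℝ) - σ) :=
    Real.summable_nat_rpow.mpr (by linarith)
  refine summable_of_isBigO_nat h2 ?_
  obtain ⟨C, hC⟩ := h1.bound
  refine IsBigO.of_bound (C / (2 * π) ^ σ) ?_
  filter_upwards [hC, eventually_gt_atTop 0] with n hn hn0
  have hn1 : (0 : ℝ) < n := by exact_mod_cast hn0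
  have hp : (0 : ℝ) < (2 * π) ^ σ := by positivity
  have hq : (0 : ℝ) < (n : ℝ) ^ σ := by positivity
  have he : (((2 * k : ℕ) : ℤ) : ℝ) / 2 = k := by push_cast; ring
  rw [he, Real.norm_of_nonneg (by positivity)] at hn
  rw [Real.norm_of_nonneg (by positivity), Real.norm_of_nonneg (by positivity),
    Real.mul_rpow (by positivity) hn1.le, Real.rpow_sub hn1, div_mul_div_comm]
  refine div_le_div_of_nonneg_right ?_ (by positivity)
  rw [norm_mul]
  calc _ ≤ ‖aF f n‖ * 1 := mul_le_mul_of_nonneg_left (norm_J _ _) (norm_nonneg _)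
    _ ≤ _ := by rw [mul_one]; exact hn

theorem rowEXL : OfEXL := by
  intro hS hJ hG hD N k f hA
  obtain ⟨hk, hsf, hm⟩ := hA
  have hodd : Odd N := by rw [Nat.odd_iff]; omega
  have hN : 0 < N := hodd.pos
  have hp : ((2 * π : ℝ) : ℂ) ≠ 0 := by
    have : (0 : ℝ) < 2 * π := by positivity
    exact_mod_cast this.ne'
  refine ⟨fun s => ((2 * π : ℝ) : ℂ) ^ s * (Gamma s)⁻¹ * mellin (gE N f) s, ?_, ?_⟩
  · refine Differentiable.mul (Differentiable.mul ?_ differentiable_one_div_Gamma)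
      (mellin_diff hS hD N k hN f)
    exact differentiable_id.const_cpow (Or.inl hp)
  · intro s hs
    have hs0 : 0 < s.re := by
      have : (0 : ℝ) ≤ k := Nat.cast_nonneg k
      linarith
    have ha0 : aF f 0 = 0 := (hS.cf _ f).2.1
    have h1 := hasSum_mellin (a := fun n : ℕ => aF f n * J(n | N)) (p := fun n : ℕ => 2 * π * n)
      (F := gE N f) (s := s) (fun n => by
        rcases Nat.eq_zero_or_pos n with rfl | h
        · left; simp [ha0]
        · right; have : (0 : ℝ) < n := by exact_mod_cast h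
          positivity) hs0
      (fun t ht => gE_hasSum hS hJ hG N _ f hodd hsf t ht) (coeff_summable N k f _ hs)
    have h2 := h1.mul_left (((2 * π : ℝ) : ℂ) ^ s * (Gamma s)⁻¹)
    unfold LSeries
    refine (HasSum.tsum_eq (HasSum.congr_fun h2 fun n => ?_)).symm
    rcases Nat.eq_zero_or_pos n with rfl | h
    · simp [ha0]
    · rw [LSeries.term_of_ne_zero h.ne']
      have hG0 : Gamma s ≠ 0 := Gamma_ne_zero_of_re_pos hs0
      have h3 : ((2 * π * n : ℝ) : ℂ) ^ s = ((2 * π : ℝ) : ℂ) ^ s * (n : ℂ) ^ s := by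
        rw [ofReal_mul (2 * π), mul_cpow_ofReal_nonneg (by positivity) (Nat.cast_nonneg n)]
        simp
      have h4 : ((2 * π : ℝ) : ℂ) ^ s ≠ 0 := by
        rw [Ne, cpow_eq_zero_iff]
        exact fun h => hp h.1
      have h5 : (n : ℂ) ^ s ≠ 0 := by
        rw [Ne, cpow_eq_zero_iff]
        exact fun h' => h.ne' (by exact_mod_cast h'.1)
      rw [h3]
      field_simp

end

end Pool.Agent.MP_5f72fe_nt.H63
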